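import Mathlib

namespace Pool.Agent.Results.MP_2f9b3f_lc.Q1

open Finset

variable {n : ℕ}

/-- A marginal scenario: closed under subsets, containing the empty set and all singletons. -/
def Scen (M : Set (Finset (Fin n))) : Prop :=
  (∀ T ∈ M, ∀ S ⊆ T, S ∈ M) ∧ ∅ ∈ M ∧ ∀ i, {i} ∈ M

/-- The polytope of marginal models on `M` with outcome sets `O i`. -/
def Models (M : Set (Finset (Fin n))) (O : Fin n → Type) [∀ i, Fintype (O i)] [∀ i, DecidableEq (O i)] :
    Set ((S : M) → ((i : S.1) → O i) → ℝ) :=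
  {p | (∀ S x, 0 ≤ p S x) ∧ (∀ S, ∑ x, p S x = 1) ∧
    ∀ (S T : M) (h : S.1 ⊆ T.1) x, p S x = ∑ y with (fun i : S.1 => y ⟨i, h i.2⟩) = x, p T y}

/-- Polymatroids on `[n]`. -/
def Poly (f : Finset (Fin n) → ℝ) : Prop :=
  f ∅ = 0 ∧ (∀ S T, S ⊆ T → f S ≤ f T) ∧ ∀ S T, f (S ∪ T) + f (S ∩ T) ≤ f S + f T

def M : Set (Finset (Fin 4)) := {S | #S ≤ 2}

def ψ (S : Finset (Fin 4)) (w : Fin 3) (i : Fin 4) : Fin 3 :=
  if i = 0 then w else if w = (if S = {1, 2} ∨ S = {2, 3} then 0 else ![0, 0, 1, 2] i) then 1 else 0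

def φ (S : Finset (Fin 4)) (w : Fin 3) (i : S) : Fin 3 := ψ S w i

def mk (c : M → Fin 3 → ℝ) (S : M) (x : (i : S.1) → Fin 3) : ℝ := ∑ w, if φ S w = x then c S w else 0

lemma sm (c : M → Fin 3 → ℝ) (S : M) (G : _ → ℝ) : ∑ x, mk c S x * G x = ∑ w, c S w * G (φ S w) := by
  simp only [mk, sum_mul]
  rw [sum_comm]
  simp

lemma marg (c : M → Fin 3 → ℝ) (S T : M) (h : S.1 ⊆ T.1) (x) :
    ∑ y with (fun i : S.1 => y ⟨i, h i.2⟩) = x, mk c T y =
      ∑ w, if (fun i : S.1 => φ T w ⟨i, h i.2⟩) = x then c T w else 0 := by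
  simpa [sum_filter] using sm c T fun y => if (fun i : S.1 => y ⟨i, h i.2⟩) = x then 1 else 0

theorem result : ∃ (n : ℕ) (M : Set (Finset (Fin n))) (O : Fin n → Type) (_ : ∀ i, Fintype (O i))
    (_ : ∀ i, DecidableEq (O i)), Scen M ∧ (∀ i, Nonempty (O i)) ∧ ∃ p ∈ (Models M O).extremePoints ℝ,
      ¬ ∃ f, Poly f ∧ ∀ S : M, f S.1 = ∑ x, Real.negMulLog (p S x) := by
  refine ⟨4, M, fun _ => Fin 3, inferInstance, inferInstance,
    ⟨fun T a S b => (card_le_card b).trans a, by simp [M], by simp [M]⟩, inferInstance, mk fun _ _ => 1 / 3,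
    mem_extremePoints_iff_left.2 ⟨⟨fun S x => ?_, fun S => ?_, fun S T h x => ?_⟩, ?_⟩, ?_⟩
  · unfold mk; positivity
  · simpa using sm (fun _ _ => 1 / 3) S fun _ => 1
  · have : ∀ T : Finset (Fin 4), #T ≤ 2 → ∀ S ⊆ T, ∃ σ : Equiv.Perm (Fin 3), ∀ w, ∀ i ∈ S,
        ψ T (σ w) i = ψ S w i := by decide +kernel
    obtain ⟨σ, e⟩ := this T T.2 S h
    refine .trans ?_ (marg _ S T h x).symm
    rw [← Equiv.sum_comp σ]
    exact sum_congr rfl fun w _ => if_congr (Eq.congr_left (funext fun i => (e w i i.2).symm)) rfl rfl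
  · rintro q ⟨q0, q1, q2⟩ r ⟨r0, -⟩ ⟨a, b, a0, b0, -, e⟩
    have z (S : M) (x) (h : ∀ w, φ S w ≠ x) : q S x = 0 := by
      have := congrFun (congrFun e S) x
      simp [mk, h] at this
      nlinarith [mul_nonneg b0.le (r0 S x), q0 S x]
    obtain ⟨c, rfl⟩ : ∃ c, q = mk c := by
      refine ⟨fun S w => q S (φ S w) / #{v | φ S v = φ S w}, funext₂ fun S x => ?_⟩
      by_cases h : ∃ w, φ S w = x
      · obtain ⟨w, rfl⟩ := h
        rw [mk, ← sum_filter, sum_congr rfl fun v m => by rw [(mem_filter.1 m).2], sum_const, nsmul_eq_mul,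
          mul_div_cancel₀ _ (Nat.cast_ne_zero.2 (card_pos.2 ⟨w, by simp⟩).ne')]
      · simp [mk, z S x (not_exists.1 h), not_exists.1 h]
    replace q2 (S T h x) := (q2 S T h x).trans (marg c S T h x)
    replace q1 (S) : ∑ w, c S w = 1 := by simpa [q1] using (sm c S fun _ => 1).symm
    have k (i j : Fin 4) (v : Fin 3) := And.intro (q2 ⟨{i}, by simp [M]⟩ ⟨{i, j}, card_le_two⟩ (by simp) fun _ => v)
      (q2 ⟨{j}, by simp [M]⟩ ⟨{i, j}, card_le_two⟩ (by simp) fun _ => v)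
    have k1 := And.intro (k 0 1) (And.intro (k 0 2) (And.intro (k 0 3) (And.intro (k 1 2 1)
      (And.intro (k 1 3 1) (k 2 3 1)))))
    simp +decide only [mk, Fin.sum_univ_three, if_true, if_false, Fin.forall_fin_succ, IsEmpty.forall_iff,
      and_true] at k1
    refine funext₂ fun ⟨S, m⟩ x => ?_
    by_cases h : ∃ w, φ S w = x
    · obtain ⟨w, rfl⟩ := h
      have : ∀ S : Finset (Fin 4), #S ≤ 2 → S ∈ [∅, {0}, {1}, {2}, {3}, {0, 1}, {0, 2}, {0, 3}, {1, 2}, {1, 3},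
        {2, 3}] := by decide +kernel
      have t := q1 ⟨S, m⟩
      have u := q1 ⟨{0}, by simp [M]⟩
      have := this S m
      fin_cases this <;> fin_cases w <;>
        simp +decide only [mk, Fin.sum_univ_three, if_true, if_false] at t u ⊢ <;> grind
    · simp [mk, not_exists.1 h]
  · rintro ⟨f, ⟨-, f1, f2⟩, h⟩
    have H (S : M) : f S = ∑ w, 1 / 3 * -Real.log (mk (fun _ _ => 1 / 3) S (φ S w)) := by
      rw [h, ← sm (fun _ _ => 1 / 3) S fun x => -Real.log (mk (fun _ _ => 1 / 3) S x)]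
      simp [Real.negMulLog]
    have a := H ⟨{1, 2}, card_le_two⟩
    have b := H ⟨{2, 3}, card_le_two⟩
    have c := H ⟨{1, 3}, card_le_two⟩
    have d := H ⟨{2}, by simp [M]⟩
    simp +decide only [mk, Fin.sum_univ_three, if_true, if_false] at a b c d
    have e := f1 {1, 3} ({1, 2} ∪ {2, 3}) (by decide)
    have g := f2 {1, 2} {2, 3}
    rw [show ({1, 2} ∩ {2, 3} : Finset (Fin 4)) = {2} by decide] at g
    have := Real.log_lt_log (x := 1 / 3) (y := 1 / 3 + 1 / 3) (by norm_num) (by norm_num)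
    simp only [add_zero, zero_add] at a b c d
    linarith

end Pool.Agent.Results.MP_2f9b3f_lc.Q1
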